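import Mathlib

set_option autoImplicit false
set_option linter.style.longLine false

/-!
# The order `𝒪` over `O` (order part): from the tower data to the abstract order hypotheses

`O` is the base ring, `S` the order, `M` the residue field.
-/

namespace Pool.Agent.H.MP_9e990c_al.h82

/-! ### Three lemmas on derivations in characteristic three -/

section Der

variable {M : Type*} [Field M]

/-- Leibniz rule for an additive map. -/
def IsLeib (D : M →+ M) : Prop := ∀ a b : M, D (a * b) = a * D b + D a * b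

theorem IsLeib.one {D : M →+ M} (h : IsLeib D) : D 1 = 0 := by
  have := h 1 1
  simp only [mul_one, one_mul] at this
  have h2 : D 1 + 0 = D 1 + D 1 := by rw [add_zero]; exact this
  exact (add_left_cancel h2).symm

theorem IsLeib.inv {D : M →+ M} (h : IsLeib D) {y : M} (hy0 : y ≠ 0) :
    D y⁻¹ = - (D y * y⁻¹ * y⁻¹) := by
  have h1 := h y y⁻¹
  rw [mul_inv_cancel₀ hy0, h.one] at h1
  have h2 : y * D y⁻¹ = - (D y * y⁻¹) := by
    linear_combination -h1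
  have h3 : D y⁻¹ = y⁻¹ * (y * D y⁻¹) := by
    rw [← mul_assoc, inv_mul_cancel₀ hy0, one_mul]
  rw [h3, h2]
  ring

theorem lin3 (h3 : (3 : M) = 0) {D : M →+ M} (h : IsLeib D) {y : M} (hy : D y = y) (hy0 : y ≠ 0)
    {G0 G1 G2 : M} (d0 : D G0 = 0) (d1 : D G1 = 0) (d2 : D G2 = 0)
    (e : G0 + G1 * y + G2 * (y * y) = 0) : G0 = 0 ∧ G1 = 0 ∧ G2 = 0 := by
  have a1 : D (G1 * y) = G1 * y := by rw [h, hy, d1]; ring
  have a2 : D (G2 * (y * y)) = 2 * (G2 * (y * y)) := by rw [h, h, hy, d2]; ring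
  have b1 : G1 * y + 2 * (G2 * (y * y)) = 0 := by
    have := congrArg D e
    rw [map_add, map_add, a1, a2, d0, map_zero, zero_add] at this
    exact this
  have b2 : G1 * y + 2 * (2 * (G2 * (y * y))) = 0 := by
    have := congrArg D b1
    rw [map_add, a1, two_mul, map_add, a2, map_zero] at this
    linear_combination this
  have c2 : G2 * (y * y) = 0 := by
    linear_combination (G2 * (y * y)) * h3 - b2 + b1
  have c1 : G1 * y = 0 := by
    linear_combination b1 - 2 * c2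
  have g2 : G2 = 0 := by
    rcases mul_eq_zero.1 c2 with h | h
    · exact h
    · exact absurd (mul_self_eq_zero.1 h) hy0
  have g1 : G1 = 0 := by
    rcases mul_eq_zero.1 c1 with h | h
    · exact h
    · exact absurd h hy0
  refine ⟨?_, g1, g2⟩
  rw [g1, g2] at e
  linear_combination e

theorem dec3 (h3 : (3 : M) = 0) {D : M →+ M} (h : IsLeib D) (cube : ∀ a, D (D (D a)) = D a)
    {y : M} (hy : D y = y) (hy0 : y ≠ 0) (F : M) :
    ∃ G0 G1 G2 : M, F = G0 + G1 * y + G2 * (y * y) ∧ D G0 = 0 ∧ D G1 = 0 ∧ D G2 = 0 ∧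
      ∀ E : M →+ M, IsLeib E → E y = 0 → E F = 0 → (∀ a, E (D a) = D (E a)) →
        E G0 = 0 ∧ E G1 = 0 ∧ E G2 = 0 := by
  have hi : D y⁻¹ = - y⁻¹ := by
    rw [h.inv hy0, hy]
    field_simp
  refine ⟨F - D (D F), -(D F + D (D F)) * y⁻¹, (D F - D (D F)) * (y⁻¹ * y⁻¹), ?_, ?_, ?_, ?_, ?_⟩
  · have e1 : -(D F + D (D F)) * y⁻¹ * y = -(D F + D (D F)) := by
      rw [mul_assoc, inv_mul_cancel₀ hy0, mul_one]
    have e2 : (D F - D (D F)) * (y⁻¹ * y⁻¹) * (y * y) = D F - D (D F) := by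
      have : (y⁻¹ * y⁻¹) * (y * y) = 1 := by field_simp
      rw [mul_assoc, this, mul_one]
    rw [e1, e2]
    linear_combination (D (D F)) * h3
  · rw [map_sub, cube, sub_self]
  · rw [h, map_neg, map_add, cube, hi]
    ring
  · rw [h, h, map_sub, cube, hi]
    linear_combination (-(D F - D (D F)) * (y⁻¹ * y⁻¹)) * h3
  · intro E hE hEy hEF hc
    have k1 : E (D F) = 0 := by rw [hc, hEF, map_zero]
    have k2 : E (D (D F)) = 0 := by rw [hc, k1, map_zero]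
    have k3 : E y⁻¹ = 0 := by rw [hE.inv hy0, hEy]; ring
    refine ⟨?_, ?_, ?_⟩
    · rw [map_sub, hEF, k2, sub_zero]
    · rw [hE, map_neg, map_add, k1, k2, k3]; ring
    · rw [hE, hE, map_sub, k1, k2, k3]; ring

end Der


/-! ### The data -/

/-- Input of the order part: base ring `O` with residue map `redO : O →+* M`, commuting
derivations `D1 D2 D3` of `M`, and the tower `S` over `O` (free with basis `z1^a z3^b z2^c`). -/
structure OrdIn (O S M : Type) [CommRing O] [Ring S] [Field M] where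
  three_M : (3 : M) = 0
  -- base ring
  pi : O
  pi_reg : ∀ r, pi * r = 0 → r = 0
  pi_sep : ∀ r, (∀ n : ℕ, ∃ r', r = pi ^ n * r') → r = 0
  pi_pow : pi ^ 12 = -3
  redO : O →+* M
  red_pi : redO pi = 0
  kerO : ∀ r, redO r = 0 → ∃ r', r = pi * r'
  s1 : O →+* O
  s2 : O →+* O
  s3 : O →+* O
  s1_pi : s1 pi = pi
  s2_pi : s2 pi = pi
  s3_pi : s3 pi = pi
  -- residue field
  D1 : M →+ M
  D2 : M →+ M
  D3 : M →+ M
  leib1 : IsLeib D1
  leib2 : IsLeib D2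
  leib3 : IsLeib D3
  cube1 : ∀ a, D1 (D1 (D1 a)) = D1 a
  cube2 : ∀ a, D2 (D2 (D2 a)) = D2 a
  cube3 : ∀ a, D3 (D3 (D3 a)) = D3 a
  comm12 : ∀ a, D1 (D2 a) = D2 (D1 a)
  comm13 : ∀ a, D1 (D3 a) = D3 (D1 a)
  comm23 : ∀ a, D2 (D3 a) = D3 (D2 a)
  red_D1 : ∀ r, D1 (redO r) = 0
  red_D2 : ∀ r, D2 (redO r) = 0
  red_D3 : ∀ r, D3 (redO r) = 0
  range : ∀ F, D1 F = 0 → D2 F = 0 → D3 F = 0 → ∃ r, redO r = F
  y1 : M
  y2 : M
  y3 : M
  y1_ne : y1 ≠ 0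
  y2_ne : y2 ≠ 0
  y3_ne : y3 ≠ 0
  D11 : D1 y1 = y1
  D12 : D1 y2 = 0
  D13 : D1 y3 = 0
  D21 : D2 y1 = 0
  D22 : D2 y2 = y2
  D23 : D2 y3 = 0
  D31 : D3 y1 = 0
  D32 : D3 y2 = 0
  D33 : D3 y3 = y3
  t : O
  t_ne : redO t ^ 3 ≠ redO t
  X1 : M → M
  X2 : M → M
  X3 : M → M
  cong1 : ∀ r, ∃ r', s1 r = r + pi ^ 4 * r' ∧ redO r' = X1 (redO r)
  cong2 : ∀ r, ∃ r', s2 r = r + pi ^ 4 * r' ∧ redO r' = X2 (redO r)
  cong3 : ∀ r, ∃ r', s3 r = r + pi ^ 4 * r' ∧ redO r' = X3 (redO r)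
  centO : ∀ r, X1 (redO r) = 0 → X2 (redO r) = 0 → X3 (redO r) = 0 →
    ∃ c, s1 c = c ∧ s2 c = c ∧ s3 c = c ∧ redO c = redO r
  u1 : O
  u3 : O
  u1_eq : ∃ e, u1 = 1 + 2 * pi ^ 3 * t + pi ^ 4 * e
  u3_eq : ∃ e, u3 = 1 + 2 * pi ^ 3 + pi ^ 4 * e
  -- tower
  i : O →+* S
  z1 : S
  z2 : S
  z3 : S
  z1_i : ∀ r, z1 * i r = i (s1 r) * z1
  z2_i : ∀ r, z2 * i r = i (s2 r) * z2
  z3_i : ∀ r, z3 * i r = i (s3 r) * z3
  z13 : z1 * z3 = z3 * z1
  z12 : z1 * z2 = i u1 * z2 * z1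
  z32 : z3 * z2 = i u3 * z2 * z3
  coord : ∀ x : S, ∃! c : Fin 3 → Fin 3 → Fin 3 → O,
    x = ∑ a, ∑ b, ∑ d, i (c a b d) * (z1 ^ (a : ℕ) * z3 ^ (b : ℕ) * z2 ^ (d : ℕ))
  rho : S →+* M
  rho_i : ∀ r, rho (i r) = redO r
  rho_z1 : rho z1 = y1
  rho_z2 : rho z2 = y2
  rho_z3 : rho z3 = y3
  -- involution
  sO : O →+* O
  sO_pi : sO pi = pi
  sS : S →+* S
  sS_i : ∀ r, sS (i r) = i (sO r)
  sS_z1 : z1 * sS z1 = 1
  sS_z2 : z2 * sS z2 = 1
  sS_z3 : z3 * sS z3 = 1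
  sb : M →+* M
  sb_red : ∀ r, sb (redO r) = redO (sO r)
  sb_y1 : sb y1 = y1⁻¹
  sb_y2 : sb y2 = y2⁻¹
  sb_y3 : sb y3 = y3⁻¹

namespace OrdIn

variable {O S M : Type} [CommRing O] [Ring S] [Field M] (A : OrdIn O S M)

/-- The derivation `t D_1 + D_3`. -/
def L : M →+ M where
  toFun F := A.redO A.t * A.D1 F + A.D3 F
  map_zero' := by simp
  map_add' a b := by simp only [map_add]; ring

theorem L_apply (F : M) : A.L F = A.redO A.t * A.D1 F + A.D3 F := rfl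

theorem leibL : IsLeib A.L := by
  intro a b
  rw [L_apply, L_apply, L_apply, A.leib1, A.leib3]
  ring

theorem red_L (r : O) : A.L (A.redO r) = 0 := by
  rw [L_apply, A.red_D1, A.red_D3, mul_zero, add_zero]

theorem D1_t_mul (F : M) : A.D1 (A.redO A.t * F) = A.redO A.t * A.D1 F := by
  rw [A.leib1, A.red_D1, zero_mul, add_zero]

theorem D3_t_mul (F : M) : A.D3 (A.redO A.t * F) = A.redO A.t * A.D3 F := by
  rw [A.leib3, A.red_D3, zero_mul, add_zero]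

/-- `L³ = t³ D_1 + D_3`. -/
theorem L_cube (F : M) : A.L (A.L (A.L F)) = A.redO A.t ^ 3 * A.D1 F + A.D3 F := by
  simp only [L_apply, map_add, A.D1_t_mul, A.D3_t_mul, A.cube1, A.cube3]
  have e1 : A.D1 (A.D1 (A.D3 F)) = A.D3 (A.D1 (A.D1 F)) := by
    rw [A.comm13, A.comm13]
  have e2 : A.D1 (A.D3 (A.D1 F)) = A.D3 (A.D1 (A.D1 F)) := by
    rw [A.comm13]
  have e3 : A.D1 (A.D3 (A.D3 F)) = A.D3 (A.D3 (A.D1 F)) := by
    rw [A.comm13, A.comm13]
  have e4 : A.D3 (A.D1 (A.D3 F)) = A.D3 (A.D3 (A.D1 F)) := by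
    rw [A.comm13]
  rw [e1, e2, e3, e4]
  linear_combination (A.redO A.t ^ 2 * A.D3 (A.D1 (A.D1 F)) + A.redO A.t * A.D3 (A.D3 (A.D1 F))) * A.three_M

theorem L_zero {F : M} (h : A.L F = 0) : A.D1 F = 0 ∧ A.D3 F = 0 := by
  have h3 : A.redO A.t ^ 3 * A.D1 F + A.D3 F = 0 := by
    rw [← L_cube, h, map_zero, map_zero]
  have h1 : A.redO A.t * A.D1 F + A.D3 F = 0 := by rw [← L_apply, h]
  have h2 : (A.redO A.t ^ 3 - A.redO A.t) * A.D1 F = 0 := by linear_combination h3 - h1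
  have h4 : A.D1 F = 0 := by
    rcases mul_eq_zero.1 h2 with h | h
    · exact absurd (sub_eq_zero.1 h) A.t_ne
    · exact h
  refine ⟨h4, ?_⟩
  rw [h4] at h1
  linear_combination h1

theorem L_ss (g : M) (h : A.L (A.L g) = 0) : A.L g = 0 := by
  obtain ⟨h1, -⟩ := A.L_zero h
  have h3 : A.redO A.t ^ 3 * A.D1 g + A.D3 g = 0 := by
    rw [← L_cube, h, map_zero]
  have h4 : A.L g = (A.redO A.t - A.redO A.t ^ 3) * A.D1 g := by
    rw [L_apply]
    linear_combination h3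
  have hd : A.D1 (A.redO A.t - A.redO A.t ^ 3) = 0 := by
    rw [← map_pow, ← map_sub, A.red_D1]
  have h5 : (A.redO A.t - A.redO A.t ^ 3) * A.D1 (A.D1 g) = 0 := by
    rw [h4, A.leib1, hd] at h1
    linear_combination h1
  have h6 : A.D1 (A.D1 g) = 0 := by
    rcases mul_eq_zero.1 h5 with h | h
    · exact absurd (sub_eq_zero.1 h).symm A.t_ne
    · exact h
  have h7 : A.D1 g = 0 := by
    rw [← A.cube1, h6, map_zero]
  rw [h4, h7, mul_zero]

theorem D_ss (g : M) (h : A.D2 (A.D2 g) = 0) : A.D2 g = 0 := by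
  rw [← A.cube2, h, map_zero]

/-! ### Generation -/

theorem gen (p : S → Prop) (hadd : ∀ a b, p a → p b → p (a + b))
    (hmul : ∀ a b, p a → p b → p (a * b)) (hi : ∀ r, p (A.i r)) (h1 : p A.z1) (h2 : p A.z2)
    (h3 : p A.z3) : ∀ x, p x := by
  have p0 : p 0 := by simpa using hi 0
  have p1 : p 1 := by simpa using hi 1
  have hpow : ∀ (z : S), p z → ∀ n : ℕ, p (z ^ n) := by
    intro z hz n
    induction n with
    | zero => simpa using p1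
    | succ n ih => rw [pow_succ]; exact hmul _ _ ih hz
  intro x
  obtain ⟨c, hc, -⟩ := A.coord x
  rw [hc]
  refine Finset.sum_induction _ p hadd p0 (fun a _ => ?_)
  refine Finset.sum_induction _ p hadd p0 (fun b _ => ?_)
  refine Finset.sum_induction _ p hadd p0 (fun d _ => ?_)
  exact hmul _ _ (hi _) (hmul _ _ (hmul _ _ (hpow _ h1 _) (hpow _ h3 _)) (hpow _ h2 _))

/-- the uniformizer in the order -/
def P : S := A.i A.pi

theorem P_comm (a : S) : A.P * a = a * A.P := by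
  refine A.gen (fun a => A.P * a = a * A.P) ?_ ?_ ?_ ?_ ?_ ?_ a
  · intro a b ha hb
    rw [mul_add, add_mul, ha, hb]
  · intro a b ha hb
    rw [← mul_assoc, ha, mul_assoc, hb, mul_assoc]
  · intro r
    simp only [P]
    rw [← map_mul, ← map_mul, mul_comm]
  · simp only [P]
    rw [A.z1_i, A.s1_pi]
  · simp only [P]
    rw [A.z2_i, A.s2_pi]
  · simp only [P]
    rw [A.z3_i, A.s3_pi]

theorem Pn_comm (n : ℕ) (a : S) : A.P ^ n * a = a * A.P ^ n := by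
  have h : Commute A.P a := A.P_comm a
  exact (h.pow_left n).eq

theorem coord_zero {c : Fin 3 → Fin 3 → Fin 3 → O}
    (h : 0 = ∑ a, ∑ b, ∑ d, A.i (c a b d) * (A.z1 ^ (a : ℕ) * A.z3 ^ (b : ℕ) * A.z2 ^ (d : ℕ)))
    (a b d : Fin 3) : c a b d = 0 := by
  obtain ⟨c0, -, hu⟩ := A.coord 0
  have e1 := hu c h
  have e2 := hu (fun _ _ _ => 0) (by simp)
  rw [e1, ← e2]

theorem mul_coord (r : O) (c : Fin 3 → Fin 3 → Fin 3 → O) :
    A.i r * ∑ a, ∑ b, ∑ d, A.i (c a b d) * (A.z1 ^ (a : ℕ) * A.z3 ^ (b : ℕ) * A.z2 ^ (d : ℕ)) =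
      ∑ a, ∑ b, ∑ d, A.i (r * c a b d) *
        (A.z1 ^ (a : ℕ) * A.z3 ^ (b : ℕ) * A.z2 ^ (d : ℕ)) := by
  rw [Finset.mul_sum]
  refine Finset.sum_congr rfl (fun a _ => ?_)
  rw [Finset.mul_sum]
  refine Finset.sum_congr rfl (fun b _ => ?_)
  rw [Finset.mul_sum]
  refine Finset.sum_congr rfl (fun d _ => ?_)
  rw [map_mul, mul_assoc (A.i r)]

theorem P_reg (a : S) (h : A.P * a = 0) : a = 0 := by
  obtain ⟨c, hc, -⟩ := A.coord a
  rw [hc, P, mul_coord] at h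
  have h1 := fun a b d => A.pi_reg _ (A.coord_zero h.symm a b d)
  rw [hc]
  simp [h1]

theorem sep (a : S) (h : ∀ n : ℕ, ∃ b, a = A.P ^ n * b) : a = 0 := by
  obtain ⟨c, hc, hu⟩ := A.coord a
  have h1 : ∀ a b d, c a b d = 0 := by
    intro x y z
    apply A.pi_sep
    intro n
    obtain ⟨b, hb⟩ := h n
    obtain ⟨c', hc', -⟩ := A.coord b
    have h2 := hu (fun x y z => A.pi ^ n * c' x y z) (by
      simp only []
      rw [← mul_coord, ← hc', map_pow, hb]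
      rfl)
    exact ⟨c' x y z, by rw [← h2]⟩
  rw [hc]
  simp [h1]

theorem rho_P : A.rho A.P = 0 := by
  rw [P, A.rho_i, A.red_pi]

theorem rho_coord (c : Fin 3 → Fin 3 → Fin 3 → O) :
    A.rho (∑ a, ∑ b, ∑ d, A.i (c a b d) * (A.z1 ^ (a : ℕ) * A.z3 ^ (b : ℕ) * A.z2 ^ (d : ℕ))) =
      ∑ a, ∑ b, ∑ d, A.redO (c a b d) * (A.y1 ^ (a : ℕ) * A.y3 ^ (b : ℕ) * A.y2 ^ (d : ℕ)) := by
  simp only [map_sum, map_mul, map_pow, A.rho_i, A.rho_z1, A.rho_z2, A.rho_z3]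

theorem ker (a : S) (h : A.rho a = 0) : ∃ b, a = A.P * b := by
  obtain ⟨c, hc, -⟩ := A.coord a
  rw [hc, rho_coord] at h
  -- inner sums
  set I2 : Fin 3 → Fin 3 → M := fun a b =>
    A.redO (c a b 0) + A.redO (c a b 1) * A.y2 + A.redO (c a b 2) * (A.y2 * A.y2) with hI2
  set I3 : Fin 3 → M := fun a => I2 a 0 + I2 a 1 * A.y3 + I2 a 2 * (A.y3 * A.y3) with hI3
  have e : I3 0 + I3 1 * A.y1 + I3 2 * (A.y1 * A.y1) = 0 := by
    rw [← h]
    simp only [hI3, hI2, Fin.sum_univ_three, Fin.val_zero, Fin.val_one, Fin.val_two, pow_zero,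
      pow_one, pow_two]
    ring
  have d1 : ∀ a b, A.D1 (I2 a b) = 0 := by
    intro a b
    simp only [hI2, map_add, A.leib1 _ _, A.red_D1, A.D12]
    ring
  have d3 : ∀ a b, A.D3 (I2 a b) = 0 := by
    intro a b
    simp only [hI2, map_add, A.leib3 _ _, A.red_D3, A.D32]
    ring
  have d13 : ∀ a, A.D1 (I3 a) = 0 := by
    intro a
    simp only [hI3, map_add, A.leib1 _ _, d1, A.D13]
    ring
  obtain ⟨f0, f1, f2⟩ := lin3 A.three_M A.leib1 A.D11 A.y1_ne (d13 0) (d13 1) (d13 2) e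
  have f : ∀ a, I3 a = 0 := by
    intro a
    fin_cases a
    · exact f0
    · exact f1
    · exact f2
  have g : ∀ a b, I2 a b = 0 := by
    intro a b
    obtain ⟨g0, g1, g2⟩ := lin3 A.three_M A.leib3 A.D33 A.y3_ne (d3 a 0) (d3 a 1) (d3 a 2) (f a)
    fin_cases b
    · exact g0
    · exact g1
    · exact g2
  have k : ∀ a b d, A.redO (c a b d) = 0 := by
    intro a b d
    obtain ⟨g0, g1, g2⟩ := lin3 A.three_M A.leib2 A.D22 A.y2_ne (A.red_D2 (c a b 0))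
      (A.red_D2 (c a b 1)) (A.red_D2 (c a b 2)) (g a b)
    fin_cases d
    · exact g0
    · exact g1
    · exact g2
  choose c' hc' using fun a b d => A.kerO _ (k a b d)
  refine ⟨∑ a, ∑ b, ∑ d, A.i (c' a b d) * (A.z1 ^ (a : ℕ) * A.z3 ^ (b : ℕ) * A.z2 ^ (d : ℕ)), ?_⟩
  rw [P, mul_coord, hc]
  simp only [← hc']

theorem surj : Function.Surjective A.rho := by
  have r1 : A.y1 ∈ A.rho.range := ⟨A.z1, A.rho_z1⟩
  have r2 : A.y2 ∈ A.rho.range := ⟨A.z2, A.rho_z2⟩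
  have r3 : A.y3 ∈ A.rho.range := ⟨A.z3, A.rho_z3⟩
  have k0 : ∀ F, A.D1 F = 0 → A.D2 F = 0 → A.D3 F = 0 → F ∈ A.rho.range := by
    intro F h1 h2 h3
    obtain ⟨r, hr⟩ := A.range F h1 h2 h3
    exact ⟨A.i r, by rw [A.rho_i, hr]⟩
  have comb : ∀ {y G0 G1 G2 : M}, y ∈ A.rho.range → G0 ∈ A.rho.range → G1 ∈ A.rho.range →
      G2 ∈ A.rho.range → G0 + G1 * y + G2 * (y * y) ∈ A.rho.range := by
    intro y G0 G1 G2 hy h0 h1 h2
    exact add_mem (add_mem h0 (mul_mem h1 hy)) (mul_mem h2 (mul_mem hy hy))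
  have k2 : ∀ F, A.D1 F = 0 → A.D3 F = 0 → F ∈ A.rho.range := by
    intro F h1 h3
    obtain ⟨G0, G1, G2, hF, e0, e1, e2, hE⟩ := dec3 A.three_M A.leib2 A.cube2 A.D22 A.y2_ne F
    obtain ⟨a0, a1, a2⟩ := hE A.D1 A.leib1 A.D12 h1 A.comm12
    obtain ⟨b0, b1, b2⟩ := hE A.D3 A.leib3 A.D32 h3 (fun a => (A.comm23 a).symm)
    rw [hF]
    exact comb r2 (k0 _ a0 e0 b0) (k0 _ a1 e1 b1) (k0 _ a2 e2 b2)
  have k3 : ∀ F, A.D1 F = 0 → F ∈ A.rho.range := by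
    intro F h1
    obtain ⟨G0, G1, G2, hF, e0, e1, e2, hE⟩ := dec3 A.three_M A.leib3 A.cube3 A.D33 A.y3_ne F
    obtain ⟨a0, a1, a2⟩ := hE A.D1 A.leib1 A.D13 h1 A.comm13
    rw [hF]
    exact comb r3 (k2 _ a0 e0) (k2 _ a1 e1) (k2 _ a2 e2)
  intro F
  obtain ⟨G0, G1, G2, hF, e0, e1, e2, -⟩ := dec3 A.three_M A.leib1 A.cube1 A.D11 A.y1_ne F
  have : F ∈ A.rho.range := by
    rw [hF]
    exact comb r1 (k3 _ e0) (k3 _ e1) (k3 _ e2)
  exact this

end OrdIn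

end Pool.Agent.H.MP_9e990c_al.h82
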