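import Mathlib
import Pool.Agent.H.MP_9e990c_al.h79.Alg

set_option autoImplicit false
set_option linter.style.longLine false

/-!
# Coordinates of the algebra, stated through a predicate on abstract rings
-/

namespace Pool.Agent.H.MP_9e990c_al.h82

/-- Every element is uniquely `Σ i(c_abd) z1^a z3^b z2^d`. -/
def CoordP {O S : Type*} [CommRing O] [Ring S] (i : O →+* S) (z1 z2 z3 : S) : Prop :=
  ∀ x : S, ∃! c : Fin 3 → Fin 3 → Fin 3 → O,
    x = ∑ a, ∑ b, ∑ d, i (c a b d) * (z1 ^ (a : ℕ) * z3 ^ (b : ℕ) * z2 ^ (d : ℕ))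

/-- One step: every element is uniquely `Σ f(c_a) z^a`. -/
structure Step {R S : Type*} [Ring R] [Ring S] (f : R →+* S) (z : S) : Prop where
  ex : ∀ x : S, ∃ c : Fin 3 → R, x = ∑ a, f (c a) * z ^ (a : ℕ)
  un : ∀ c : Fin 3 → R, ∑ a, f (c a) * z ^ (a : ℕ) = 0 → ∀ a, c a = 0

theorem step_cyc {R : Type*} [Ring R] (d : CycData R) : Step (Cyc.of d) (Cyc.z d) where
  ex x := by
    refine ⟨![x.c0, x.c1, x.c2], ?_⟩
    rw [Fin.sum_univ_three]
    simp only [Fin.val_zero, Fin.val_one, Fin.val_two, pow_zero, pow_one, pow_two, mul_one,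
      Matrix.cons_val_zero, Matrix.cons_val_one, Matrix.cons_val_two, Matrix.tail_cons,
      Matrix.head_cons]
    exact Cyc.eq_sum x
  un c h := by
    rw [Fin.sum_univ_three] at h
    simp only [Fin.val_zero, Fin.val_one, Fin.val_two, pow_zero, pow_one, pow_two, mul_one] at h
    rw [Cyc.z_sq] at h
    have h0 := congrArg Cyc.c0 h
    have h1 := congrArg Cyc.c1 h
    have h2 := congrArg Cyc.c2 h
    simp at h0 h1 h2
    intro a
    fin_cases a
    · exact h0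
    · exact h1
    · exact h2

section three

variable {K A1 A3 S : Type*} [CommRing K] [Ring A1] [Ring A3] [Ring S] {f1 : K →+* A1} {z : A1}
  {f3 : A1 →+* A3} {y : A3} {f2 : A3 →+* S} {w : S}

theorem sum3_comm {N : Type*} [AddCommMonoid N] (g : Fin 3 → Fin 3 → Fin 3 → N) :
    ∑ d, ∑ b, ∑ a, g a b d = ∑ a, ∑ b, ∑ d, g a b d := by
  calc ∑ d, ∑ b, ∑ a, g a b d = ∑ b, ∑ d, ∑ a, g a b d := Finset.sum_comm
    _ = ∑ b, ∑ a, ∑ d, g a b d := Finset.sum_congr rfl (fun b _ => Finset.sum_comm)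
    _ = ∑ a, ∑ b, ∑ d, g a b d := Finset.sum_comm

theorem key (c : Fin 3 → Fin 3 → Fin 3 → K) :
    ∑ d : Fin 3, f2 (∑ b : Fin 3, f3 (∑ a : Fin 3, f1 (c a b d) * z ^ (a : ℕ)) * y ^ (b : ℕ)) * w ^ (d : ℕ) =
      ∑ a : Fin 3, ∑ b : Fin 3, ∑ d : Fin 3, (f2.comp (f3.comp f1)) (c a b d) *
        ((f2 (f3 z)) ^ (a : ℕ) * (f2 y) ^ (b : ℕ) * w ^ (d : ℕ)) := by
  rw [← sum3_comm]
  refine Finset.sum_congr rfl (fun d _ => ?_)
  rw [map_sum, Finset.sum_mul]
  refine Finset.sum_congr rfl (fun b _ => ?_)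
  rw [map_mul, map_pow, map_sum, map_sum, Finset.sum_mul, Finset.sum_mul]
  refine Finset.sum_congr rfl (fun a _ => ?_)
  rw [map_mul, map_mul, map_pow, map_pow, RingHom.comp_apply, RingHom.comp_apply]
  simp only [mul_assoc]

theorem three_step (h1 : Step f1 z) (h3 : Step f3 y) (h2 : Step f2 w) :
    CoordP (f2.comp (f3.comp f1)) (f2 (f3 z)) w (f2 y) := by
  intro x
  obtain ⟨p, hp⟩ := h2.ex x
  choose q hq using fun d => h3.ex (p d)
  choose r hr using fun d b => h1.ex (q d b)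
  have e : x = ∑ a : Fin 3, ∑ b : Fin 3, ∑ d : Fin 3, (f2.comp (f3.comp f1)) (r d b a) *
        ((f2 (f3 z)) ^ (a : ℕ) * (f2 y) ^ (b : ℕ) * w ^ (d : ℕ)) := by
    rw [← key (fun a b d => r d b a), hp]
    refine Finset.sum_congr rfl (fun d _ => ?_)
    congr 2
    rw [hq d]
    refine Finset.sum_congr rfl (fun b _ => ?_)
    congr 2
    exact hr d b
  refine ⟨fun a b d => r d b a, e, ?_⟩
  intro c hc
  have h0 : ∑ a : Fin 3, ∑ b : Fin 3, ∑ d : Fin 3, (f2.comp (f3.comp f1)) (c a b d - r d b a) *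
        ((f2 (f3 z)) ^ (a : ℕ) * (f2 y) ^ (b : ℕ) * w ^ (d : ℕ)) = 0 := by
    simp only [map_sub, sub_mul, Finset.sum_sub_distrib]
    rw [← e, ← hc, sub_self]
  rw [← key (fun a b d => c a b d - r d b a)] at h0
  funext a b d
  have k1 := h2.un _ h0 d
  have k2 := h3.un _ k1 b
  have k3 := h1.un _ k2 a
  exact sub_eq_zero.1 k3

end three

/-- **Coordinates** of `D.Alg`. -/
theorem coordP {K : Type*} [CommRing K] (D : AlgData K) : CoordP D.ofK D.z1 D.z2 D.z3 := by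
  have h := three_step (step_cyc D.d1) (step_cyc D.d3) (step_cyc D.d2)
  unfold AlgData.ofK AlgData.z1 AlgData.z2 AlgData.z3 AlgData.y1 AlgData.y3 AlgData.j3
  exact h

end Pool.Agent.H.MP_9e990c_al.h82
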