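import Pool.Agent.H.MP_9e990c_al.h9.Ord
import Pool.Agent.H.MP_9e990c_al.h82.OrdIn

set_option autoImplicit false
set_option linter.style.longLine false

/-!
# The order `𝒪` over `O` (order part), bracket and the instance of helper9's structure
-/

namespace Pool.Agent.H.MP_9e990c_al.h82

namespace OrdIn

variable {O S M : Type} [CommRing O] [Ring S] [Field M] (A : OrdIn O S M)

/-! ### The bracket -/

/-- the bracket of the residue field -/
def B (F G : M) : M := A.D2 F * A.L G - A.L F * A.D2 G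

theorem B_add_left (F F' G : M) : A.B (F + F') G = A.B F G + A.B F' G := by
  simp only [B, map_add]; ring

theorem B_add_right (F G G' : M) : A.B F (G + G') = A.B F G + A.B F G' := by
  simp only [B, map_add]; ring

theorem B_mul_left (F F' G : M) : A.B (F * F') G = F * A.B F' G + A.B F G * F' := by
  simp only [B, A.leib2 _ _, A.leibL _ _]; ring

theorem B_mul_right (F G G' : M) : A.B F (G * G') = G * A.B F G' + A.B F G * G' := by
  simp only [B, A.leib2 _ _, A.leibL _ _]; ring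

/-- the commutator of `a` and `b` is as predicted by the bracket -/
def Q (a b : S) : Prop := ∃ c, a * b - b * a = A.P ^ 3 * c ∧ A.rho c = A.B (A.rho a) (A.rho b)

theorem Q_add_left {a a' b : S} (h : A.Q a b) (h' : A.Q a' b) : A.Q (a + a') b := by
  obtain ⟨c, e, f⟩ := h
  obtain ⟨c', e', f'⟩ := h'
  refine ⟨c + c', ?_, ?_⟩
  · rw [mul_add (A.P ^ 3), ← e, ← e', add_mul, mul_add]
    abel
  · rw [map_add, map_add, A.B_add_left, f, f']

theorem Q_add_right {a b b' : S} (h : A.Q a b) (h' : A.Q a b') : A.Q a (b + b') := by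
  obtain ⟨c, e, f⟩ := h
  obtain ⟨c', e', f'⟩ := h'
  refine ⟨c + c', ?_, ?_⟩
  · rw [mul_add (A.P ^ 3), ← e, ← e', add_mul, mul_add]
    abel
  · rw [map_add, map_add, A.B_add_right, f, f']

theorem Q_mul_left {a a' b : S} (h : A.Q a b) (h' : A.Q a' b) : A.Q (a * a') b := by
  obtain ⟨c, e, f⟩ := h
  obtain ⟨c', e', f'⟩ := h'
  refine ⟨a * c' + c * a', ?_, ?_⟩
  · rw [mul_add (A.P ^ 3), ← mul_assoc (A.P ^ 3) a, A.Pn_comm 3 a, mul_assoc a (A.P ^ 3), ← e',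
      ← mul_assoc (A.P ^ 3) c, ← e, mul_sub, sub_mul]
    simp only [mul_assoc]
    abel
  · rw [map_add, map_mul, map_mul, map_mul, A.B_mul_left, f, f']

theorem Q_mul_right {a b b' : S} (h : A.Q a b) (h' : A.Q a b') : A.Q a (b * b') := by
  obtain ⟨c, e, f⟩ := h
  obtain ⟨c', e', f'⟩ := h'
  refine ⟨b * c' + c * b', ?_, ?_⟩
  · rw [mul_add (A.P ^ 3), ← mul_assoc (A.P ^ 3) b, A.Pn_comm 3 b, mul_assoc b (A.P ^ 3), ← e',
      ← mul_assoc (A.P ^ 3) c, ← e, mul_sub, sub_mul]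
    simp only [mul_assoc]
    abel
  · rw [map_add, map_mul, map_mul, map_mul, A.B_mul_right, f, f']

theorem Q_symm {a b : S} (h : A.Q a b) : A.Q b a := by
  obtain ⟨c, e, f⟩ := h
  refine ⟨-c, ?_, ?_⟩
  · rw [mul_neg, ← e, neg_sub]
  · rw [map_neg, f, B, B]; ring

theorem Q_of_comm {a b : S} (h : a * b = b * a) (hB : A.B (A.rho a) (A.rho b) = 0) : A.Q a b :=
  ⟨0, by rw [h, sub_self, mul_zero], by rw [map_zero, hB]⟩

theorem B_red_left (r : O) (G : M) : A.B (A.redO r) G = 0 := by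
  rw [B, A.red_D2, A.red_L]; ring

theorem B_red_right (F : M) (r : O) : A.B F (A.redO r) = 0 := by
  rw [B, A.red_D2, A.red_L]; ring

theorem z_i_sub {z : S} {s : O →+* O} (hz : ∀ r, z * A.i r = A.i (s r) * z) {r r' : O}
    (h : s r = r + A.pi ^ 4 * r') : z * A.i r - A.i r * z = A.P ^ 4 * (A.i r' * z) := by
  rw [hz, h, map_add, map_mul, map_pow, P, add_mul, add_sub_cancel_left, mul_assoc]

theorem Q_z_i {z : S} {s : O →+* O} (hz : ∀ r, z * A.i r = A.i (s r) * z)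
    (h : ∀ r, ∃ r', s r = r + A.pi ^ 4 * r') (r : O) : A.Q z (A.i r) := by
  obtain ⟨r', hr'⟩ := h r
  refine ⟨A.P * (A.i r' * z), ?_, ?_⟩
  · rw [A.z_i_sub hz hr', pow_succ, mul_assoc]
  · rw [map_mul, A.rho_P, zero_mul, A.rho_i, A.B_red_right]

theorem L_y1 : A.L A.y1 = A.redO A.t * A.y1 := by rw [L_apply, A.D11, A.D31, add_zero]

theorem L_y2 : A.L A.y2 = 0 := by rw [L_apply, A.D12, A.D32, mul_zero, add_zero]

theorem L_y3 : A.L A.y3 = A.y3 := by rw [L_apply, A.D13, A.D33, mul_zero, zero_add]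

theorem Q13 : A.Q A.z1 A.z3 := by
  apply A.Q_of_comm A.z13
  rw [A.rho_z1, A.rho_z3, B, A.D21, A.D23]
  ring

theorem Q12 : A.Q A.z1 A.z2 := by
  obtain ⟨e, he⟩ := A.u1_eq
  refine ⟨(A.i (2 * A.t) + A.P * A.i e) * (A.z2 * A.z1), ?_, ?_⟩
  · have h1 : A.i A.u1 = 1 + A.P ^ 3 * (A.i (2 * A.t) + A.P * A.i e) := by
      rw [he]
      simp only [P, ← map_mul, ← map_pow, ← map_add, ← map_one A.i]
      congr 1
      ring
    rw [A.z12, h1, mul_assoc, add_mul, one_mul, add_sub_cancel_left, mul_assoc]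
  · simp only [map_mul, map_add, A.rho_P, A.rho_i, A.rho_z1, A.rho_z2, B, A.D21, A.D22, A.L_y1,
      A.L_y2, map_ofNat]
    linear_combination (A.redO A.t * A.y1 * A.y2) * A.three_M

theorem Q32 : A.Q A.z3 A.z2 := by
  obtain ⟨e, he⟩ := A.u3_eq
  refine ⟨(A.i 2 + A.P * A.i e) * (A.z2 * A.z3), ?_, ?_⟩
  · have h1 : A.i A.u3 = 1 + A.P ^ 3 * (A.i 2 + A.P * A.i e) := by
      rw [he]
      simp only [P, ← map_mul, ← map_pow, ← map_add, ← map_one A.i]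
      congr 1
      ring
    rw [A.z32, h1, mul_assoc, add_mul, one_mul, add_sub_cancel_left, mul_assoc]
  · simp only [map_mul, map_add, A.rho_P, A.rho_i, A.rho_z3, A.rho_z2, B, A.D23, A.D22, A.L_y3,
      A.L_y2, map_ofNat]
    linear_combination (A.y3 * A.y2) * A.three_M

theorem Q_self_z2 : A.Q A.z2 A.z2 := by
  apply A.Q_of_comm rfl
  rw [B]; ring

theorem Q_self_z1 : A.Q A.z1 A.z1 := by
  apply A.Q_of_comm rfl
  rw [B]; ring

theorem Q_self_z3 : A.Q A.z3 A.z3 := by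
  apply A.Q_of_comm rfl
  rw [B]; ring

theorem Q_i_i (r r' : O) : A.Q (A.i r) (A.i r') := by
  apply A.Q_of_comm
  · rw [← map_mul, ← map_mul, mul_comm]
  · rw [A.rho_i, A.B_red_left]

theorem c1 (r : O) : ∃ r', A.s1 r = r + A.pi ^ 4 * r' := by
  obtain ⟨r', h, -⟩ := A.cong1 r
  exact ⟨r', h⟩

theorem c2 (r : O) : ∃ r', A.s2 r = r + A.pi ^ 4 * r' := by
  obtain ⟨r', h, -⟩ := A.cong2 r
  exact ⟨r', h⟩

theorem c3 (r : O) : ∃ r', A.s3 r = r + A.pi ^ 4 * r' := by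
  obtain ⟨r', h, -⟩ := A.cong3 r
  exact ⟨r', h⟩

theorem Q_gen_right {a : S} (hi : ∀ r, A.Q a (A.i r)) (h1 : A.Q a A.z1) (h2 : A.Q a A.z2)
    (h3 : A.Q a A.z3) (b : S) : A.Q a b :=
  A.gen (fun b => A.Q a b) (fun _ _ h h' => A.Q_add_right h h')
    (fun _ _ h h' => A.Q_mul_right h h') hi h1 h2 h3 b

theorem Q_i (r : O) (b : S) : A.Q (A.i r) b :=
  A.Q_gen_right (A.Q_i_i r) (A.Q_symm (A.Q_z_i A.z1_i A.c1 r)) (A.Q_symm (A.Q_z_i A.z2_i A.c2 r))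
    (A.Q_symm (A.Q_z_i A.z3_i A.c3 r)) b

theorem Q_all (a b : S) : A.Q a b :=
  A.gen (fun a => A.Q a b) (fun _ _ h h' => A.Q_add_left h h')
    (fun _ _ h h' => A.Q_mul_left h h') (fun r => A.Q_i r b)
    (A.Q_gen_right (A.Q_z_i A.z1_i A.c1) A.Q_self_z1 A.Q12 A.Q13 b)
    (A.Q_gen_right (A.Q_z_i A.z2_i A.c2) (A.Q_symm A.Q12) A.Q_self_z2 (A.Q_symm A.Q32) b)
    (A.Q_gen_right (A.Q_z_i A.z3_i A.c3) (A.Q_symm A.Q13) A.Q32 A.Q_self_z3 b) a

/-- `[O, 𝒪] ⊂ π⁴ 𝒪` -/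
theorem O_br (r : O) (a : S) : ∃ c, A.i r * a - a * A.i r = A.P ^ 4 * c := by
  have hz : ∀ {z : S} {s : O →+* O}, (∀ r, z * A.i r = A.i (s r) * z) →
      (∀ r, ∃ r', s r = r + A.pi ^ 4 * r') → ∃ c, A.i r * z - z * A.i r = A.P ^ 4 * c := by
    intro z s hz h
    obtain ⟨r', hr'⟩ := h r
    exact ⟨-(A.i r' * z), by rw [mul_neg, ← A.z_i_sub hz hr', neg_sub]⟩
  refine A.gen (fun a => ∃ c, A.i r * a - a * A.i r = A.P ^ 4 * c) ?_ ?_ ?_ (hz A.z1_i A.c1)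
    (hz A.z2_i A.c2) (hz A.z3_i A.c3) a
  · rintro a b ⟨c, hc⟩ ⟨d, hd⟩
    refine ⟨c + d, ?_⟩
    rw [mul_add (A.P ^ 4), ← hc, ← hd, mul_add, add_mul]
    abel
  · rintro a b ⟨c, hc⟩ ⟨d, hd⟩
    refine ⟨c * b + a * d, ?_⟩
    rw [mul_add (A.P ^ 4), ← mul_assoc (A.P ^ 4) c, ← hc, ← mul_assoc (A.P ^ 4) a, A.Pn_comm 4 a,
      mul_assoc a (A.P ^ 4), ← hd, mul_sub, sub_mul]
    simp only [mul_assoc]
    abel
  · intro r'
    exact ⟨0, by rw [← map_mul, ← map_mul, mul_comm, sub_self, mul_zero]⟩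

theorem O_z {z : S} {s : O →+* O} {X : M → M} (hz : ∀ r, z * A.i r = A.i (s r) * z)
    (h : ∀ r, ∃ r', s r = r + A.pi ^ 4 * r' ∧ A.redO r' = X (A.redO r)) (r : O) :
    ∃ c, A.i r * z - z * A.i r = A.P ^ 4 * c ∧ A.rho c = -(X (A.rho (A.i r)) * A.rho z) := by
  obtain ⟨r', h1, h2⟩ := h r
  refine ⟨-(A.i r' * z), ?_, ?_⟩
  · rw [mul_neg, ← A.z_i_sub hz h1, neg_sub]
  · rw [map_neg, map_mul, A.rho_i, A.rho_i, h2]

theorem rho_sS (a : S) : A.rho (A.sS a) = A.sb (A.rho a) := by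
  have hz : ∀ {z : S} {y : M}, y ≠ 0 → A.rho z = y → z * A.sS z = 1 → A.sb y = y⁻¹ →
      A.rho (A.sS z) = A.sb (A.rho z) := by
    intro z y hy h1 h2 h3
    rw [h1, h3]
    have := congrArg A.rho h2
    rw [map_mul, map_one, h1] at this
    exact eq_inv_of_mul_eq_one_right this
  refine A.gen (fun a => A.rho (A.sS a) = A.sb (A.rho a)) ?_ ?_ ?_
    (hz A.y1_ne A.rho_z1 A.sS_z1 A.sb_y1) (hz A.y2_ne A.rho_z2 A.sS_z2 A.sb_y2)
    (hz A.y3_ne A.rho_z3 A.sS_z3 A.sb_y3) a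
  · intro a b ha hb
    rw [map_add, map_add, map_add, map_add, ha, hb]
  · intro a b ha hb
    rw [map_mul, map_mul, map_mul, map_mul, ha, hb]
  · intro r
    rw [A.sS_i, A.rho_i, A.rho_i, A.sb_red]

theorem sS_P : A.sS A.P = A.P := by rw [P, A.sS_i, A.sO_pi]

theorem threeS : (3 : S) = - A.P ^ 12 := by
  rw [P, ← map_pow, A.pi_pow, map_neg, map_ofNat, neg_neg]

theorem XD (X : M → M) {s : O →+* O}
    (h : ∀ r, ∃ r', s r = r + A.pi ^ 4 * r' ∧ A.redO r' = X (A.redO r)) (r : O) :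
    A.D2 (X (A.redO r)) = 0 ∧ A.L (X (A.redO r)) = 0 := by
  obtain ⟨r', -, h2⟩ := h r
  rw [← h2]
  exact ⟨A.red_D2 _, A.red_L _⟩

theorem i_central {c : O} (h1 : A.s1 c = c) (h2 : A.s2 c = c) (h3 : A.s3 c = c) (a : S) :
    A.i c * a = a * A.i c := by
  refine A.gen (fun a => A.i c * a = a * A.i c) ?_ ?_ ?_ ?_ ?_ ?_ a
  · intro a b ha hb
    rw [mul_add, add_mul, ha, hb]
  · intro a b ha hb
    rw [← mul_assoc, ha, mul_assoc, hb, mul_assoc]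
  · intro r
    rw [← map_mul, ← map_mul, mul_comm]
  · rw [A.z1_i, h1]
  · rw [A.z2_i, h2]
  · rw [A.z3_i, h3]

/-- **Order part.** The order is an instance of helper9's structure `Ord`. -/
def toOrd (unit : ∀ a, A.rho a ≠ 0 → IsUnit a) : Ord S M where
  red := A.rho
  surj := A.surj
  P := A.P
  P_comm := A.P_comm
  P_reg := A.P_reg
  sep := A.sep
  red_P := A.rho_P
  ker := A.ker
  unit := unit
  three := A.threeS
  D := A.D2
  L := A.L
  L_neg F := map_neg A.L F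
  D_ss := A.D_ss
  L_ss := A.L_ss
  br := A.Q_all
  O := Set.range A.i
  O_comm := by
    rintro _ ⟨r, rfl⟩ _ ⟨r', rfl⟩
    rw [← map_mul, ← map_mul, mul_comm]
  O_br := by
    rintro _ ⟨r, rfl⟩ a
    exact A.O_br r a
  O_lift F h1 h2 := by
    obtain ⟨h3, h4⟩ := A.L_zero h2
    obtain ⟨r, hr⟩ := A.range F h3 h1 h4
    exact ⟨A.i r, ⟨r, rfl⟩, by rw [A.rho_i, hr]⟩
  z1 := A.z1
  z2 := A.z2
  z3 := A.z3
  t := A.redO A.t
  z1_ne := by rw [A.rho_z1]; exact A.y1_ne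
  z2_ne := by rw [A.rho_z2]; exact A.y2_ne
  z3_ne := by rw [A.rho_z3]; exact A.y3_ne
  D_z1 := by rw [A.rho_z1]; exact A.D21
  D_z2 := by rw [A.rho_z2]; exact A.D22
  D_z3 := by rw [A.rho_z3]; exact A.D23
  L_z1 := by rw [A.rho_z1]; exact A.L_y1
  L_z2 := by rw [A.rho_z2]; exact A.L_y2
  L_z3 := by rw [A.rho_z3]; exact A.L_y3
  X1 := A.X1
  X2 := A.X2
  X3 := A.X3
  O_z1 := by
    rintro _ ⟨r, rfl⟩
    exact A.O_z A.z1_i A.cong1 r
  O_z2 := by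
    rintro _ ⟨r, rfl⟩
    exact A.O_z A.z2_i A.cong2 r
  O_z3 := by
    rintro _ ⟨r, rfl⟩
    exact A.O_z A.z3_i A.cong3 r
  XL2 := by
    rintro _ ⟨r, rfl⟩
    rw [A.rho_i]
    exact (A.XD A.X2 A.cong2 r).2
  XD3 := by
    rintro _ ⟨r, rfl⟩
    rw [A.rho_i]
    exact (A.XD A.X3 A.cong3 r).1
  cent := by
    rintro _ ⟨r, rfl⟩ h1 h2 h3
    rw [A.rho_i] at h1 h2 h3
    obtain ⟨c, e1, e2, e3, e⟩ := A.centO r h1 h2 h3
    exact ⟨A.i c, A.i_central e1 e2 e3, by rw [A.rho_i, A.rho_i, e]⟩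
  s := A.sS
  s_P := A.sS_P
  sb := A.sb
  red_s := A.rho_sS

end OrdIn

end Pool.Agent.H.MP_9e990c_al.h82
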