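import Pool.Agent.H.MP_9e990c_al.h20.Range
import Pool.Agent.H.MP_9e990c_al.h82.OrdIn

set_option autoImplicit false
set_option linter.style.longLine false

/-!
# The derivations `y_k ∂/∂y_k` of the residue field
-/

namespace Pool.Agent.H.MP_9e990c_al.h82

open N9e Base

/-- `y_k ∂/∂y_k` -/
noncomputable def DD (k : Fin 7) : MM →+ MM where
  toFun F := xx k * pd k F
  map_zero' := by rw [map_zero, mul_zero]
  map_add' a b := by rw [map_add, mul_add]

theorem DD_apply (k : Fin 7) (F : MM) : DD k F = xx k * pd k F := rfl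

theorem leibDD (k : Fin 7) : IsLeib (DD k) := by
  intro a b
  rw [DD_apply, DD_apply, DD_apply, Derivation.leibniz, smul_eq_mul, smul_eq_mul]
  ring

theorem DD_xx (k j : Fin 7) : DD k (xx j) = if k = j then xx j else 0 := by
  rw [DD_apply, pd_xx]
  split_ifs with h
  · rw [h, mul_one]
  · rw [mul_zero]

theorem DD_cube (k : Fin 7) (a : MM) : DD k (DD k (DD k a)) = DD k a := by
  have h : ((DD k).comp ((DD k).comp (DD k))) = DD k := by
    refine leib_ext' _ _ ?_ ?_ ?_
    · intro a b
      simp only [AddMonoidHom.comp_apply, leibDD k _ _, map_add]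
      linear_combination (DD k a * DD k (DD k b) + DD k (DD k a) * DD k b) * three_MM
    · intro a b
      rw [leibDD k]
      ring
    · intro i
      simp only [AddMonoidHom.comp_apply]
      by_cases h : k = i
      · rw [DD_xx, if_pos h, DD_xx, if_pos h, DD_xx, if_pos h]
      · rw [DD_xx, if_neg h, map_zero, map_zero]
  exact congrArg (fun f : MM →+ MM => f a) h

theorem DD_comm (j k : Fin 7) (a : MM) : DD j (DD k a) = DD k (DD j a) := by
  have h : ((DD j).comp (DD k) - (DD k).comp (DD j)) = 0 := by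
    refine leib_ext' _ _ ?_ ?_ ?_
    · intro a b
      simp only [AddMonoidHom.sub_apply, AddMonoidHom.comp_apply, leibDD j _ _, leibDD k _ _,
        map_add]
      ring
    · intro a b
      simp
    · intro i
      simp only [AddMonoidHom.sub_apply, AddMonoidHom.comp_apply, AddMonoidHom.zero_apply]
      rw [DD_xx, DD_xx]
      split_ifs with h1 h2
      · rw [DD_xx, DD_xx, if_pos h1, if_pos h2, sub_self]
      · rw [DD_xx, if_neg h2, map_zero, sub_self]
      · rw [DD_xx, if_neg h1, map_zero, sub_self]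
      · rw [map_zero, map_zero, sub_self]
  have h2 := congrArg (fun f : MM →+ MM => f a) h
  exact sub_eq_zero.1 h2

theorem DD_redO (k : Fin 7) (hk : 4 ≤ k) (r : O) : DD k (redO r) = 0 := by
  rw [DD_apply, pd_redO r k hk, mul_zero]

theorem pd_zero_of_DD {k : Fin 7} {F : MM} (h : DD k F = 0) : pd k F = 0 := by
  rw [DD_apply] at h
  rcases mul_eq_zero.1 h with h | h
  · exact absurd h (xx_ne_zero k)
  · exact h

theorem DD_range (F : MM) (h1 : DD 4 F = 0) (h2 : DD 5 F = 0) (h3 : DD 6 F = 0) :
    ∃ r : O, redO r = F :=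
  mem_range_redO' F (pd_zero_of_DD h1) (pd_zero_of_DD h2) (pd_zero_of_DD h3)

theorem redO_t : redO (varO 0) = xx 0 := by
  rw [redO_var, if_pos (by decide)]

theorem t_cube_ne : redO (varO 0) ^ 3 ≠ redO (varO 0) := by
  rw [redO_t]
  intro h
  have h1 := congrArg (pd 0) h
  rw [Derivation.leibniz_pow, pd_self, nsmul_eq_mul] at h1
  have h3 : ((3 : ℕ) : MM) = 0 := by exact_mod_cast three_MM
  rw [h3, zero_mul] at h1
  exact zero_ne_one h1

end Pool.Agent.H.MP_9e990c_al.h82
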