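import Pool.Agent.H.MP_9e990c_al.h79.More
import Pool.Agent.H.MP_9e990c_al.h9.Inv
import Pool.Agent.H.MP_9e990c_al.h89.Congr
import Pool.Agent.H.MP_9e990c_al.h30.Field
import Pool.Agent.H.MP_9e990c_al.h82.Ord
import Pool.Agent.H.MP_9e990c_al.h82.Res
import Pool.Agent.H.MP_9e990c_al.h82.Coord

set_option autoImplicit false
set_option linter.style.longLine false

/-!
# The order `𝒪 = Alg` over the concrete ring `O`: instance of the order structure
-/

namespace Pool.Agent.H.MP_9e990c_al.h82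

open N9e Base

/-- The properties of the algebra data over the concrete ring `O` used in section 3. -/
structure Good (D : AlgData O) : Prop where
  s1 : D.s1 = sO 1
  s2 : D.s2 = sO 2
  s3 : D.s3 = sO 3
  u1 : ∃ e, D.u1 = 1 + 2 * piO ^ 3 * varO 0 + piO ^ 4 * e
  u3 : ∃ e, D.u3 = 1 + 2 * piO ^ 3 + piO ^ 4 * e
  a1 : redO D.a1 = xx 4 ^ 3
  a2 : redO D.a2 = xx 5 ^ 3
  a3 : redO D.a3 = xx 6 ^ 3
  sg_pi : D.sg piO = piO
  sg_red : ∀ r, redO (D.sg r) = sb (redO r)

namespace Good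

variable {D : AlgData O} (G : Good D)

include G

theorem red_u1 : redO D.u1 = 1 := by
  obtain ⟨e, he⟩ := G.u1
  rw [he]
  simp only [map_add, map_mul, map_pow, map_one, redO_pi]
  ring

theorem red_u3 : redO D.u3 = 1 := by
  obtain ⟨e, he⟩ := G.u3
  rw [he]
  simp only [map_add, map_mul, map_pow, map_one, redO_pi]
  ring

theorem red_v1 : redO D.v1 = 1 := by
  have h := congrArg redO D.v1u1
  rwa [map_mul, map_one, G.red_u1, mul_one] at h

theorem red_v3 : redO D.v3 = 1 := by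
  have h := congrArg redO D.v3u3
  rwa [map_mul, map_one, G.red_u3, mul_one] at h

theorem rel : D.Rel redO (xx 4) (xx 5) (xx 6) where
  h1 k := by rw [G.s1, redO_sO (by decide), mul_comm]
  h2 k := by rw [G.s2, redO_sO (by decide), mul_comm]
  h3 k := by rw [G.s3, redO_sO (by decide), mul_comm]
  h31 := mul_comm _ _
  h21 := by rw [G.red_v1, one_mul, mul_comm]
  h23 := by rw [G.red_v3, one_mul, mul_comm]
  p1 := G.a1.symm
  p2 := G.a2.symm
  p3 := G.a3.symm

/-- The residue map of the order. -/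
noncomputable def rho : D.Alg →+* MM := AlgData.lift G.rel

theorem rho_ofK (r : O) : G.rho (D.ofK r) = redO r := AlgData.lift_ofK G.rel r

theorem rho_z1 : G.rho D.z1 = xx 4 := AlgData.lift_z1 G.rel

theorem rho_z2 : G.rho D.z2 = xx 5 := AlgData.lift_z2 G.rel

theorem rho_z3 : G.rho D.z3 = xx 6 := AlgData.lift_z3 G.rel

/-- The order as an instance of `OrdIn`. -/
noncomputable def ordIn : OrdIn O D.Alg MM where
  three_M := three_MM
  pi := piO
  pi_reg := nzdO
  pi_sep := sepO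
  pi_pow := piO_pow
  redO := redO
  red_pi := redO_pi
  kerO := redO_ker
  s1 := D.s1
  s2 := D.s2
  s3 := D.s3
  s1_pi := by rw [G.s1, sO_pi]
  s2_pi := by rw [G.s2, sO_pi]
  s3_pi := by rw [G.s3, sO_pi]
  D1 := DD 4
  D2 := DD 5
  D3 := DD 6
  leib1 := leibDD 4
  leib2 := leibDD 5
  leib3 := leibDD 6
  cube1 := DD_cube 4
  cube2 := DD_cube 5
  cube3 := DD_cube 6
  comm12 := DD_comm 4 5
  comm13 := DD_comm 4 6
  comm23 := DD_comm 5 6
  red_D1 := DD_redO 4 (by decide)
  red_D2 := DD_redO 5 (by decide)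
  red_D3 := DD_redO 6 (by decide)
  range := DD_range
  y1 := xx 4
  y2 := xx 5
  y3 := xx 6
  y1_ne := xx_ne_zero 4
  y2_ne := xx_ne_zero 5
  y3_ne := xx_ne_zero 6
  D11 := by rw [DD_xx, if_pos rfl]
  D12 := by rw [DD_xx, if_neg (by decide)]
  D13 := by rw [DD_xx, if_neg (by decide)]
  D21 := by rw [DD_xx, if_neg (by decide)]
  D22 := by rw [DD_xx, if_pos rfl]
  D23 := by rw [DD_xx, if_neg (by decide)]
  D31 := by rw [DD_xx, if_neg (by decide)]
  D32 := by rw [DD_xx, if_neg (by decide)]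
  D33 := by rw [DD_xx, if_pos rfl]
  t := varO 0
  t_ne := h82.t_cube_ne
  X1 F := pd 1 F
  X2 F := pd 2 F
  X3 F := pd 3 F
  cong1 r := by rw [G.s1]; exact sO_congr (by decide) r
  cong2 r := by rw [G.s2]; exact sO_congr (by decide) r
  cong3 r := by rw [G.s3]; exact sO_congr (by decide) r
  centO r h1 h2 h3 := by
    obtain ⟨c, hc, e⟩ := inv_lift r (by
      rintro j (rfl | rfl | rfl)
      · exact h1
      · exact h2
      · exact h3)
    refine ⟨c, ?_, ?_, ?_, e⟩
    · rw [G.s1]; exact hc 1 (Or.inl rfl)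
    · rw [G.s2]; exact hc 2 (Or.inr (Or.inl rfl))
    · rw [G.s3]; exact hc 3 (Or.inr (Or.inr rfl))
  u1 := D.u1
  u3 := D.u3
  u1_eq := G.u1
  u3_eq := G.u3
  i := D.ofK
  z1 := D.z1
  z2 := D.z2
  z3 := D.z3
  z1_i := D.z1_ofK
  z2_i := D.z2_ofK
  z3_i := D.z3_ofK
  z13 := D.z3_z1.symm
  z12 := by rw [D.z1_z2, mul_assoc]
  z32 := by rw [D.z3_z2, mul_assoc]
  coord := coordP D
  rho := G.rho
  rho_i := G.rho_ofK
  rho_z1 := G.rho_z1
  rho_z2 := G.rho_z2
  rho_z3 := G.rho_z3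
  sO := D.sg
  sO_pi := G.sg_pi
  sS := D.sigma
  sS_i := D.sigma_ofK
  sS_z1 := D.z1_mul_sigma
  sS_z2 := D.z2_mul_sigma
  sS_z3 := D.z3_mul_sigma
  sb := sb
  sb_red r := (G.sg_red r).symm
  sb_y1 := sb_y1
  sb_y2 := sb_y2
  sb_y3 := sb_y3

/-- **No 3-central element in the order.** -/
theorem no_three
    (unit : ∀ a, G.rho a ≠ 0 → IsUnit a) {z : D.Alg} (hz : G.rho z ≠ 0) (hs : D.sigma z = z)
    (h3 : ∀ a, z ^ 3 * a = a * z ^ 3) (a : D.Alg) : z * a = a * z := by
  set A := G.ordIn with hA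
  refine (A.toOrd unit).central ?_ hz hs h3 a
  intro v hadd hmul hO hbr hsb hv3
  have hr : ∀ r, v (redO r) = 0 := by
    intro r
    have := hO (D.ofK r) ⟨r, rfl⟩
    rwa [show (A.toOrd unit).red (D.ofK r) = redO r from G.rho_ofK r] at this
  have hx : ∀ i : Fin 7, i < 4 → v (xx i) = 0 := by
    intro i hi
    have := hr (varO i)
    rwa [redO_var, if_pos hi] at this
  have hL : ∀ F, (A.toOrd unit).L F = LL F := by
    intro F
    change redO (varO 0) * DD 4 F + DD 6 F = LL F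
    rw [redO_t]
    rfl
  refine FIELD v hadd hmul (hx 0 (by decide)) (hx 1 (by decide)) (hx 2 (by decide))
    (hx 3 (by decide)) ?_ hsb hv3
  intro F H
  have := hbr F H
  simp only [hL] at this
  exact this

end Good

end Pool.Agent.H.MP_9e990c_al.h82
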