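import Pool.Agent.H.MP_9e990c_al.h9.Data
import Pool.Agent.H.MP_9e990c_al.h82.Inst

set_option autoImplicit false

/-! Existence of the data over the concrete ring `O`. -/

namespace Pool.Agent.H.MP_9e990c_al.h82

open N9e Base

theorem exists_good : ∃ D : AlgData O, Good D ∧ D.sg = gO := by
  obtain ⟨D, s1, s2, s3, sg, u1, u3, a1, a2, a3⟩ := exists_data
  exact ⟨D, ⟨s1, s2, s3, u1, u3, a1, a2, a3, by rw [sg, gO_pi],
    fun r => by rw [sg, redO_gO_sb]⟩, sg⟩

end Pool.Agent.H.MP_9e990c_al.h82
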